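import Mathlib

/-!
# Fatou's lemma for upper limits of continuous functions bounded above
-/

set_option autoImplicit false

namespace Pool.Agent.H89.LZ

open MeasureTheory Filter Topology

theorem toENNReal_neg_le {X : Type*} {ψ : ℕ → X → ℝ} {φ : X → EReal}
    (hφ : ∀ x, limsup (fun k => (ψ k x : EReal)) atTop ≤ φ x) (x : X) :
    (-(φ x)).toENNReal ≤ liminf (fun k => ENNReal.ofReal (-(ψ k x))) atTop := by
  have h1 : -(φ x) ≤ liminf (fun k => ((-(ψ k x) : ℝ) : EReal)) atTop := by
    have h2 : liminf (fun k => ((-(ψ k x) : ℝ) : EReal)) atTop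
        = - limsup (fun k => (ψ k x : EReal)) atTop := by
      rw [← EReal.liminf_neg]
      rfl
    rw [h2]
    exact EReal.neg_le_neg_iff.2 (hφ x)
  refine le_of_forall_lt fun c hc => ?_
  -- `c < (-(φ x)).toENNReal`
  have hcT : c ≠ ⊤ := ne_top_of_lt hc
  have h3 : ((c.toReal : ℝ) : EReal) < -(φ x) := by
    by_contra h
    push Not at h
    have h4 := EReal.toENNReal_le_toENNReal h
    have h5 : (((c.toReal : ℝ) : EReal)).toENNReal = c := by
      rw [EReal.toENNReal_of_ne_top (EReal.coe_ne_top _), EReal.toReal_coe,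
        ENNReal.ofReal_toReal hcT]
    rw [h5] at h4
    exact absurd hc (not_lt.2 h4)
  obtain ⟨b, hb1, hb2⟩ := exists_between (lt_of_lt_of_le h3 h1)
  obtain ⟨r, hr1, hr2⟩ := EReal.exists_between_coe_real hb1
  have h6 : ∀ᶠ k in atTop, b < ((-(ψ k x) : ℝ) : EReal) :=
    eventually_lt_of_lt_liminf hb2
  have hcr : c < ENNReal.ofReal r := by
    have h7 : c.toReal < r := by exact_mod_cast hr1
    calc c = ENNReal.ofReal c.toReal := (ENNReal.ofReal_toReal hcT).symm
      _ < ENNReal.ofReal r := by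
          rw [ENNReal.ofReal_lt_ofReal_iff (lt_of_le_of_lt ENNReal.toReal_nonneg h7)]
          exact h7
  refine lt_of_lt_of_le hcr ?_
  refine le_liminf_of_le (by isBoundedDefault) ?_
  filter_upwards [h6] with k hk
  have h8 : (r : EReal) < ((-(ψ k x) : ℝ) : EReal) := lt_trans hr2 hk
  exact ENNReal.ofReal_le_ofReal (le_of_lt (by exact_mod_cast h8))

theorem liminf_le {X : Type*} [TopologicalSpace X] [CompactSpace X] [MeasurableSpace X]
    [BorelSpace X] (ν : Measure X) [IsProbabilityMeasure ν] {ψ : ℕ → X → ℝ}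
    (hc : ∀ k, Continuous (ψ k)) {C C' : ℝ} (hC : ∀ k x, ψ k x ≤ C)
    (hC' : ∀ᶠ k in atTop, -C' ≤ ∫ x, ψ k x ∂ν) :
    ∫⁻ x, liminf (fun k => ENNReal.ofReal (-(ψ k x))) atTop ∂ν
      ≤ ENNReal.ofReal (max C 0 + C') := by
  have hint : ∀ k, Integrable (ψ k) ν := by
    intro k
    obtain ⟨B, hB⟩ := (isCompact_range (hc k)).isBounded.exists_norm_le
    exact Integrable.of_bound (hc k).aestronglyMeasurable B
      (Eventually.of_forall fun x => hB _ ⟨x, rfl⟩)
  refine le_trans (lintegral_liminf_le fun k => ((hc k).neg.measurable).ennreal_ofReal) ?_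
  refine liminf_le_of_frequently_le' ?_
  refine Eventually.frequently ?_
  filter_upwards [hC'] with k hk
  calc ∫⁻ x, ENNReal.ofReal (-(ψ k x)) ∂ν
      ≤ ∫⁻ x, ENNReal.ofReal (max C 0 - ψ k x) ∂ν := by
        refine lintegral_mono fun x => ENNReal.ofReal_le_ofReal ?_
        have := le_max_right C 0
        linarith
    _ = ENNReal.ofReal (∫ x, (max C 0 - ψ k x) ∂ν) := by
        refine (ofReal_integral_eq_lintegral_ofReal (f := fun x => max C 0 - ψ k x)
          ((integrable_const _).sub (hint k)) ?_).symm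
        refine Eventually.of_forall fun x => ?_
        have h1 := hC k x
        have h2 := le_max_left C 0
        simp only [Pi.zero_apply]
        linarith
    _ ≤ ENNReal.ofReal (max C 0 + C') := by
        refine ENNReal.ofReal_le_ofReal ?_
        rw [integral_sub (integrable_const _) (hint k), integral_const]
        simp only [probReal_univ, one_smul]
        linarith

/-- Let `ψ k` be continuous functions on a compact space, bounded above by `C`, with integrals at
least `-C'` for all large `k`, and `φ` at least their upper limit. Then the integral of the negative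
part of `φ` is at most `max C 0 + C'`. -/
theorem lintegral_neg_le {X : Type*} [TopologicalSpace X] [CompactSpace X] [MeasurableSpace X]
    [BorelSpace X] (ν : Measure X) [IsProbabilityMeasure ν] {ψ : ℕ → X → ℝ}
    (hc : ∀ k, Continuous (ψ k)) {C C' : ℝ} (hC : ∀ k x, ψ k x ≤ C)
    (hC' : ∀ᶠ k in atTop, -C' ≤ ∫ x, ψ k x ∂ν) {φ : X → EReal}
    (hφ : ∀ x, limsup (fun k => (ψ k x : EReal)) atTop ≤ φ x) :
    ∫⁻ x, (-(φ x)).toENNReal ∂ν ≤ ENNReal.ofReal (max C 0 + C') :=
  le_trans (lintegral_mono fun x => toENNReal_neg_le hφ x) (liminf_le ν hc hC hC')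

/-- In particular `φ` is `-∞` almost nowhere. -/
theorem ae_ne_bot {X : Type*} [TopologicalSpace X] [CompactSpace X] [MeasurableSpace X]
    [BorelSpace X] (ν : Measure X) [IsProbabilityMeasure ν] {ψ : ℕ → X → ℝ}
    (hc : ∀ k, Continuous (ψ k)) {C C' : ℝ} (hC : ∀ k x, ψ k x ≤ C)
    (hC' : ∀ᶠ k in atTop, -C' ≤ ∫ x, ψ k x ∂ν) {φ : X → EReal}
    (hφ : ∀ x, limsup (fun k => (ψ k x : EReal)) atTop ≤ φ x) :
    ∀ᵐ x ∂ν, φ x ≠ ⊥ := by
  have h1 : ∫⁻ x, liminf (fun k => ENNReal.ofReal (-(ψ k x))) atTop ∂ν ≠ ⊤ :=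
    ne_top_of_le_ne_top ENNReal.ofReal_ne_top (liminf_le ν hc hC hC')
  have h3 : Measurable fun x => liminf (fun k => ENNReal.ofReal (-(ψ k x))) atTop :=
    Measurable.liminf fun k => ((hc k).neg.measurable).ennreal_ofReal
  filter_upwards [ae_lt_top h3 h1] with x hx hbot
  have h4 := toENNReal_neg_le hφ x
  rw [hbot] at h4
  simp only [EReal.neg_bot, EReal.toENNReal_top, top_le_iff] at h4
  exact absurd h4 hx.ne

/-- If the `ψ k` are nonnegative in the mean and `φ` is at most `C` then, in the usual sense,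
the integral of `φ` is at least `0`: the integral of `C - φ` is at most `C`. -/
theorem lintegral_sub_le {X : Type*} [TopologicalSpace X] [CompactSpace X] [MeasurableSpace X]
    [BorelSpace X] (ν : Measure X) [IsProbabilityMeasure ν] {ψ : ℕ → X → ℝ}
    (hc : ∀ k, Continuous (ψ k)) {C C' : ℝ} (hC : ∀ k x, ψ k x ≤ C)
    (hC' : ∀ᶠ k in atTop, -C' ≤ ∫ x, ψ k x ∂ν) {φ : X → EReal}
    (hφ : ∀ x, limsup (fun k => (ψ k x : EReal)) atTop ≤ φ x) :
    ∫⁻ x, ((C : EReal) - φ x).toENNReal ∂ν ≤ ENNReal.ofReal (C + C') := by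
  have hφ' : ∀ x, limsup (fun k => ((ψ k x - C : ℝ) : EReal)) atTop ≤ φ x - (C : EReal) := by
    intro x
    have h1 : (fun k => ((ψ k x - C : ℝ) : EReal)) = fun k => ((ψ k x : ℝ) : EReal) + ((-C : ℝ) : EReal) := by
      funext k
      rw [sub_eq_add_neg]
      exact EReal.coe_add _ _
    have h2 : limsup (fun k => ((ψ k x : ℝ) : EReal) + ((-C : ℝ) : EReal)) atTop
        ≤ limsup (fun k => ((ψ k x : ℝ) : EReal)) atTop + ((-C : ℝ) : EReal) := by
      refine le_of_le_of_eq (EReal.limsup_add_le ?_ ?_) ?_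
      · exact Or.inr (by simp)
      · exact Or.inr (by simp)
      · simp
    rw [h1]
    refine le_trans h2 ?_
    rw [sub_eq_add_neg, ← EReal.coe_neg]
    exact add_le_add_left (hφ x) _
  have h := lintegral_neg_le ν (ψ := fun k x => ψ k x - C) (fun k => (hc k).sub continuous_const)
    (C := 0) (C' := C + C') (fun k x => by have := hC k x; linarith) (by
      filter_upwards [hC'] with k hk
      have hint : Integrable (ψ k) ν := by
        obtain ⟨B, hB⟩ := (isCompact_range (hc k)).isBounded.exists_norm_le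
        exact Integrable.of_bound (hc k).aestronglyMeasurable B
          (Eventually.of_forall fun x => hB _ ⟨x, rfl⟩)
      rw [integral_sub hint (integrable_const _), integral_const]
      simp only [probReal_univ, one_smul]
      linarith) hφ'
  rw [max_self, zero_add] at h
  refine le_trans (lintegral_mono fun x => ?_) h
  refine EReal.toENNReal_le_toENNReal ?_
  rw [EReal.neg_sub (Or.inr (EReal.coe_ne_bot _)) (Or.inr (EReal.coe_ne_top _)), add_comm,
    sub_eq_add_neg]

end Pool.Agent.H89.LZ
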